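import Pool.Agent.H18.N6F.Targets
import Pool.Agent.H23.QCF.Lib
import Pool.Agent.H34.N6.Lib

/-!
# Two quadrics in `ℙ⁶`, block F2: the point of odd degree
-/

set_option autoImplicit false

open Polynomial NumberField IsDedekindDomain Matrix Pool.Agent.H32.QC Pool.Agent.H34.N6
  Pool.Agent.H18.N6F

namespace Pool.Agent.H23.N6F

theorem JJ_map {F E : Type*} [Field F] [Field E] (ι : F →+* E) (d : F) :
    (JJ d).map ι = JJ (ι d) := by
  refine Matrix.ext fun i j => ?_
  rw [Matrix.map_apply]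
  unfold JJ
  split_ifs
  · exact map_one ι
  · rfl
  · exact map_zero ι

/-- the right entry of the symbol may be changed by a square -/
theorem sol_sq {L : Type*} [Field L] {a b s : L} (hs : s ≠ 0) : Sol a (b * s ^ 2) ↔ Sol a b := by
  constructor
  · rintro ⟨x, y, z, h1, h2⟩
    refine ⟨x, s * y, z, ?_, by linear_combination h2⟩
    rcases h1 with h | h | h
    · exact Or.inl h
    · exact Or.inr (Or.inl (mul_ne_zero hs h))
    · exact Or.inr (Or.inr h)
  · rintro ⟨x, y, z, h1, h2⟩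
    refine ⟨x, s⁻¹ * y, z, ?_, ?_⟩
    · rcases h1 with h | h | h
      · exact Or.inl h
      · exact Or.inr (Or.inl (mul_ne_zero (inv_ne_zero hs) h))
      · exact Or.inr (Or.inr h)
    · rw [h2]
      field_simp

section

variable {K : Type} [Field K]

/-- the two kinds of planes in terms of symbols, over any extension field -/
theorem planes (hCNC : T_CNC) (hQEV : T_QEV) (hQLC : T_QLC) (h2 : (2 : K) ≠ 0)
    {Q : Matrix (Fin 7) (Fin 7) K} {d : K} (hd : d ≠ 0) (hQ : Q.IsSymm)
    (h4 : (quart Q d).natDegree = 4) (hblk : (blk Q).det ≠ 0) (h00 : Q 0 0 ≠ 0)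
    (hmin : Q 0 0 * Q 1 1 - Q 0 1 ^ 2 ≠ 0) (E : Type) [Field E] (ι : K →+* E) :
    (TI (blk (Q.map ι)) 1 ↔ Sol (ι (-(Q 0 0 * Q 1 1 - Q 0 1 ^ 2)))
      (ι (-(Q 0 0 * (quart Q d).leadingCoeff)))) ∧
    ∀ z : E, (gm (Q.map ι) (ι d) z).det ≠ 0 →
      eval₂ ι z (C (quart Q d).leadingCoeff⁻¹ * quart Q d) ≠ 0 ∧
      (TI (gm (Q.map ι) (ι d) z) 1 ↔ Sol (ι (-(Q 0 0 * Q 1 1 - Q 0 1 ^ 2)))
        (ι (-(Q 0 0 * (quart Q d).leadingCoeff)) *
          eval₂ ι z (C (quart Q d).leadingCoeff⁻¹ * quart Q d))) := by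
  obtain ⟨-, hnat, -, hsym⟩ := hQEV K Q d
  obtain ⟨hq1, hb1, -⟩ := hnat E ι
  obtain ⟨hev, -, hent, hsymE⟩ := hQEV E (Q.map ι) (ι d)
  have hQE : (Q.map ι).IsSymm := by
    unfold Matrix.IsSymm
    rw [← Matrix.transpose_map, hQ.eq]
  have hlc : (quart Q d).leadingCoeff = (d / 2) ^ 2 * (blk Q).det := by
    have h := hQLC K h2 Q d
    rw [← h, Polynomial.leadingCoeff, h4]
  have hlc0 : (quart Q d).leadingCoeff ≠ 0 := by
    rw [hlc]
    exact mul_ne_zero (pow_ne_zero 2 (div_ne_zero hd h2)) hblk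
  constructor
  · have h1 := hCNC E (blk (Q.map ι)) (hsymE hQE).1
      (by
        rw [hb1]
        have h5 : ((blk Q).map ι).det = ι (blk Q).det := (RingHom.map_det ι _).symm
        rw [h5]
        exact (_root_.map_ne_zero ι).2 hblk)
      (by
        have h5 : blk (Q.map ι) 0 0 = ι (Q 0 0) := rfl
        rw [h5]
        exact (_root_.map_ne_zero ι).2 h00)
      (by
        have h5 : blk (Q.map ι) 0 0 * blk (Q.map ι) 1 1 - blk (Q.map ι) 0 1 ^ 2 =
            ι (Q 0 0 * Q 1 1 - Q 0 1 ^ 2) := by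
          rw [map_sub, map_mul, map_pow]
          rfl
        rw [h5]
        exact (_root_.map_ne_zero ι).2 hmin)
    rw [h1]
    have h5 : blk (Q.map ι) 0 0 * blk (Q.map ι) 1 1 - blk (Q.map ι) 0 1 ^ 2 =
        ι (Q 0 0 * Q 1 1 - Q 0 1 ^ 2) := by
      rw [map_sub, map_mul, map_pow]
      rfl
    have h6 : (blk (Q.map ι)).det = ι (blk Q).det := by
      rw [hb1]
      exact (RingHom.map_det ι _).symm
    have h7 : blk (Q.map ι) 0 0 = ι (Q 0 0) := rfl
    rw [h5, h6, h7, map_neg]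
    have h8 : ι (-(Q 0 0 * (quart Q d).leadingCoeff)) =
        -(ι (Q 0 0) * ι (blk Q).det) * (ι (d / 2)) ^ 2 := by
      rw [hlc, map_neg, map_mul, map_mul, map_pow]
      ring
    rw [h8, sol_sq ((_root_.map_ne_zero ι).2 (div_ne_zero hd h2))]
  · intro z hz
    have he1 : eval₂ ι z (C (quart Q d).leadingCoeff⁻¹ * quart Q d) =
        (ι (quart Q d).leadingCoeff)⁻¹ * (gm (Q.map ι) (ι d) z).det := by
      rw [eval₂_mul, eval₂_C, map_inv₀, ← hev z, hq1, eval_map]
    have hlcE : ι (quart Q d).leadingCoeff ≠ 0 := (_root_.map_ne_zero ι).2 hlc0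
    refine ⟨?_, ?_⟩
    · rw [he1]
      exact mul_ne_zero (inv_ne_zero hlcE) hz
    · obtain ⟨e00, e11, e01⟩ := hent z
      have h7 : gm (Q.map ι) (ι d) z 0 0 = ι (Q 0 0) := e00
      have h8 : gm (Q.map ι) (ι d) z 0 0 * gm (Q.map ι) (ι d) z 1 1 -
          gm (Q.map ι) (ι d) z 0 1 ^ 2 = ι (Q 0 0 * Q 1 1 - Q 0 1 ^ 2) := by
        rw [e00, e11, e01, map_sub, map_mul, map_pow]
        rfl
      have h1 := hCNC E (gm (Q.map ι) (ι d) z) ((hsymE hQE).2 z) hz
        (by
          rw [h7]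
          exact (_root_.map_ne_zero ι).2 h00)
        (by
          rw [h8]
          exact (_root_.map_ne_zero ι).2 hmin)
      rw [h1, h8, h7, he1, map_neg]
      have h9 : ι (-(Q 0 0 * (quart Q d).leadingCoeff)) * ((ι (quart Q d).leadingCoeff)⁻¹ *
          (gm (Q.map ι) (ι d) z).det) = -(ι (Q 0 0) * (gm (Q.map ι) (ι d) z).det) := by
        rw [map_neg, map_mul]
        field_simp
      rw [h9]

end

theorem map_self {K : Type*} [Field K] {n : ℕ} (M : Matrix (Fin n) (Fin n) K) :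
    M.map (algebraMap K K) = M := by
  refine Matrix.ext fun i j => ?_
  rfl

theorem pf_F2S (hF2A : T_F2A) (hF2B : T_F2B) (hCNC : T_CNC) (hQEV : T_QEV) (hQLC : T_QLC)
    (hMIN : T_MIN) (hCZP : T_CZP) (hHSB : T_HSB) : Pool.Agent.H34.N6.T_F2S := by
  intro K _ _ P D hP h7 hsep hcop θ hθ hTI hloc hw
  obtain ⟨B, d, hB, hd, hBf, hirr, h4, hblk, hgood⟩ := hF2A K P D hP h7 hsep hcop θ hθ hTI hloc hw
  have h2 : (2 : K) ≠ 0 := two_ne_zero
  set Q : Matrix (Fin 7) (Fin 7) K := Bᵀ * gA P D 0 * B with hQdef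
  have hQ : Q.IsSymm := by
    unfold Matrix.IsSymm
    rw [hQdef, Matrix.transpose_mul, Matrix.transpose_mul, Matrix.transpose_transpose,
      (gA_symm P D 0).eq, Matrix.mul_assoc]
  have hfin : ∀ (E : Type) [Field E] (ι : K →+* E), CZ (JJ (ι d)) (Q.map ι) →
      CZ ((gA P D 0).map ι) ((gA P D 1).map ι) := by
    intro E _ ι h
    have hB' : IsUnit (B.map ι).det := by
      have h5 : (B.map ι).det = ι B.det := (RingHom.map_det ι _).symm
      rw [h5]
      exact hB.map ι
    have h1 := (hHSB E ((ft P D θ).map ι) ((gA P D 0).map ι) (B.map ι) (ι θ) hB').2.2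
    have h5 : (B.map ι)ᵀ * (ft P D θ).map ι * B.map ι = JJ (ι d) := by
      rw [← JJ_map, ← hBf, Matrix.map_mul, Matrix.map_mul, Matrix.transpose_map]
    have h6 : (B.map ι)ᵀ * (gA P D 0).map ι * B.map ι = Q.map ι := by
      rw [hQdef, Matrix.map_mul, Matrix.map_mul, Matrix.transpose_map]
    rw [h5, h6] at h1
    have h8 := h1 h
    have h9 : (ft P D θ).map ι + ι θ • (gA P D 0).map ι = (gA P D 1).map ι := by
      refine Matrix.ext fun i j => ?_
      rw [Matrix.add_apply, Matrix.smul_apply, Matrix.map_apply, Matrix.map_apply,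
        Matrix.map_apply, smul_eq_mul, ← map_mul, ← map_add]
      congr 1
      unfold ft
      rw [Matrix.sub_apply, Matrix.smul_apply, smul_eq_mul]
      ring
    rw [h9] at h8
    exact h8
  have hK : CZ (JJ d) Q → ∃ (K' : Type) (_ : Field K') (_ : NumberField K') (_ : Algebra K K'),
      Odd (Module.finrank K K') ∧
        CZ ((gA P D 0).map (algebraMap K K')) ((gA P D 1).map (algebraMap K K')) := by
    intro h
    refine ⟨K, inferInstance, inferInstance, Algebra.id K, ?_, ?_⟩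
    · rw [Module.finrank_self]
      exact odd_one
    · apply hfin K (algebraMap K K)
      rw [map_self]
      exact h
  by_cases h00 : Q 0 0 = 0
  · apply hK
    apply (hCZP K h2 Q d).1
    refine ⟨fun _ => ![1, 0, 0], ?_, ?_⟩
    · rw [linearIndependent_unique_iff]
      intro h
      have h5 := congrFun h 0
      simp at h5
    · intro i j
      have h5 : blk Q 0 0 = 0 := h00
      simp [Matrix.mulVec, dotProduct, Fin.sum_univ_three, h5]
  · have hmin := hMIN K h2 Q d hQ hirr h4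
    have hpl := planes hCNC hQEV hQLC h2 hd hQ h4 hblk h00 hmin
    have hq0 : quart Q d ≠ 0 := hirr.ne_zero
    have hlc0 : (quart Q d).leadingCoeff ≠ 0 := Polynomial.leadingCoeff_ne_zero.2 hq0
    have hassoc : Associated (quart Q d) (C (quart Q d).leadingCoeff⁻¹ * quart Q d) := by
      have hu : IsUnit (C (quart Q d).leadingCoeff⁻¹ : K[X]) :=
        Polynomial.isUnit_C.2 (isUnit_iff_ne_zero.2 (inv_ne_zero hlc0))
      exact (associated_unit_mul_left (quart Q d) _ hu).symm
    have hloc2 : ∀ (E : Type) [Field E] (ι : K →+* E), Good (Q.map ι) (ι d) →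
        (∃ z : E, eval₂ ι z (C (quart Q d).leadingCoeff⁻¹ * quart Q d) ≠ 0 ∧
          Sol (ι (-(Q 0 0 * Q 1 1 - Q 0 1 ^ 2)))
            (ι (-(Q 0 0 * (quart Q d).leadingCoeff)) *
              eval₂ ι z (C (quart Q d).leadingCoeff⁻¹ * quart Q d))) ∨
        Sol (ι (-(Q 0 0 * Q 1 1 - Q 0 1 ^ 2))) (ι (-(Q 0 0 * (quart Q d).leadingCoeff))) := by
      intro E _ ι h
      rcases h with h | ⟨z, hz, h⟩
      · right
        exact (hpl E ι).1.1 h
      · left
        exact ⟨z, ((hpl E ι).2 z hz).1, ((hpl E ι).2 z hz).2.1 h⟩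
    have hmain := hF2B K (-(Q 0 0 * Q 1 1 - Q 0 1 ^ 2)) (-(Q 0 0 * (quart Q d).leadingCoeff))
      (C (quart Q d).leadingCoeff⁻¹ * quart Q d) (neg_ne_zero.2 hmin)
      (neg_ne_zero.2 (mul_ne_zero h00 hlc0))
      (by
        rw [mul_comm]
        exact Polynomial.monic_mul_leadingCoeff_inv hq0)
      (hassoc.irreducible hirr)
      (by rw [Polynomial.natDegree_C_mul (inv_ne_zero hlc0), h4])
      (by
        intro v
        have hv := hgood v
        cases v with
        | inl v =>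
          rcases hloc2 _ (ic v) hv with h | h
          · exact Or.inl h
          · exact Or.inr ((Pool.Agent.H23.QCF.hil_eq_one_iff _ _).2 h)
        | inr φ =>
          rcases hloc2 _ φ hv with h | h
          · exact Or.inl h
          · exact Or.inr ((Pool.Agent.H23.QCF.hil_eq_one_iff _ _).2 h))
    rcases hmain with h | ⟨K', iF, iN, iA, hodd, z, hz, h⟩
    · apply hK
      apply (hCZP K h2 Q d).1
      have h5 := (hpl K (algebraMap K K)).1
      rw [map_self] at h5
      exact h5.2 h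
    · refine ⟨K', iF, iN, iA, hodd, ?_⟩
      apply hfin K' (algebraMap K K')
      apply (hCZP K' two_ne_zero (Q.map (algebraMap K K')) (algebraMap K K' d)).2 z
      have hz' : (gm (Q.map (algebraMap K K')) (algebraMap K K' d) z).det ≠ 0 := by
        intro hcon
        apply hz
        obtain ⟨hev, -⟩ := hQEV K' (Q.map (algebraMap K K')) (algebraMap K K' d)
        obtain ⟨-, hnat, -⟩ := hQEV K Q d
        rw [← hev z, (hnat K' (algebraMap K K')).1, eval_map] at hcon
        rw [aeval_def, eval₂_mul, hcon, mul_zero]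
      exact ((hpl K' (algebraMap K K')).2 z hz').2.2 h

end Pool.Agent.H23.N6F
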