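import Pool.Agent.H18.N6F.Targets
import Pool.Agent.H23.QCF.Lib
import Pool.Agent.H32.QC.TargetsL

/-!
# Two quadrics in `ℙ⁶`, block F2: the global flag
-/

set_option autoImplicit false

open Polynomial NumberField IsDedekindDomain Matrix Pool.Agent.H32.QC Pool.Agent.H34.N6
  Pool.Agent.H18.N6F

namespace Pool.Agent.H23.N6F

/-- an isotropic vector in other coordinates -/
theorem TI_one_congr {F : Type*} [Field F] {n : ℕ} {M g : Matrix (Fin n) (Fin n) F}
    (hg : g.det ≠ 0) (h : TI M 1) : TI (gᵀ * M * g) 1 := by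
  obtain ⟨b, hb, hz⟩ := h
  have hu : IsUnit g.det := isUnit_iff_ne_zero.2 hg
  have h1 : ∀ x : Fin n → F, g *ᵥ (g⁻¹ *ᵥ x) = x := by
    intro x
    rw [Matrix.mulVec_mulVec, Matrix.mul_nonsing_inv g hu, Matrix.one_mulVec]
  refine ⟨fun i => g⁻¹ *ᵥ b i, ?_, ?_⟩
  · rw [linearIndependent_unique_iff] at hb ⊢
    intro h
    apply hb
    rw [← h1 (b default)]
    have h5 : g⁻¹ *ᵥ b default = 0 := h
    rw [h5, Matrix.mulVec_zero]
  · intro i j
    have h5 : (g⁻¹ *ᵥ b i) ⬝ᵥ ((gᵀ * M * g) *ᵥ (g⁻¹ *ᵥ b j)) = b i ⬝ᵥ (M *ᵥ b j) := by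
      rw [← Matrix.mulVec_mulVec, h1, ← Matrix.mulVec_mulVec, Matrix.dotProduct_mulVec,
        ← Matrix.mulVec_transpose, Matrix.transpose_transpose, h1]
    rw [h5]
    exact hz i j

theorem pf_GLB (hLCL : T_LCL) (hFIN : T_FIN) (hWAM : T_WAM) (hLLV : T_LLV) (hCTG : T_CTG)
    (_hQEV : T_QEV) (hADC : T_ADC) : T_GLB := by
  intro K _ _ q d hd hq hblk hHS hCZ w₁ hw₁ ε hε
  classical
  obtain ⟨S₀, hS₀⟩ := hFIN K (blk q) (by
    refine Matrix.ext fun i j => ?_
    exact hq.apply _ _) hblk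
  have hmapsymm : ∀ (E : Type) [Field E] (ι : K →+* E), (q.map ι).IsSymm := by
    intro E _ ι
    unfold Matrix.IsSymm
    rw [← Matrix.transpose_map, hq.eq]
  have hfin : ∀ v : FPl K, ∃ (g : Matrix (Fin 3) (Fin 3) (v.adicCompletion K)) (e : ℝ), 0 < e ∧
      (¬ TI ((blk q).map (ic v)) 1 → ∀ g' : Matrix (Fin 3) (Fin 3) (v.adicCompletion K),
        (∀ i j, ‖g' i j - g i j‖ < e) → g'.det ≠ 0 ∧ Good (QL (q.map (ic v)) g') (ic v d)) ∧
      (v = w₁ → g = 1 ∧ e ≤ ε ∧ ∀ g' : Matrix (Fin 3) (Fin 3) (v.adicCompletion K),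
        (∀ i j, ‖g' i j - g i j‖ < e) → g'.det ≠ 0) := by
    intro v
    by_cases hTI : TI ((blk q).map (ic v)) 1
    · by_cases hv : v = w₁
      · subst hv
        obtain ⟨δ, hδ, hδ2⟩ := hCTG (v.adicCompletion K) (q.map (ic v)) (ic v d) 0 1
          (by rw [Matrix.det_one]; exact one_ne_zero) 1 one_pos
        refine ⟨1, min ε δ, lt_min hε hδ, fun h => absurd hTI h, fun _ => ⟨rfl, min_le_left _ _, ?_⟩⟩
        intro g' hg'
        exact (hδ2 g' fun i j => (hg' i j).trans_le (min_le_right _ _)).1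
      · exact ⟨1, 1, one_pos, fun h => absurd hTI h, fun h => absurd h hv⟩
    · have hv : v ≠ w₁ := by
        rintro rfl
        exact hTI hw₁
      obtain ⟨hp, hc, x, hx⟩ := hADC K v
      letI nn : NontriviallyNormedField (v.adicCompletion K) :=
        { (inferInstance : NormedField (v.adicCompletion K)) with non_trivial := ⟨x, hx⟩ }
      have hcomp : CompleteSpace (v.adicCompletion K) := inferInstance
      obtain ⟨g, e, he, h1⟩ := hLCL (v.adicCompletion K) two_ne_zero (q.map (ic v)) (ic v d)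
        ((_root_.map_ne_zero (ic v)).2 hd) (hmapsymm _ (ic v)) (hHS _ (ic v)) hTI (hCZ (Sum.inl v))
      exact ⟨g, e, he, fun _ => h1, fun h => absurd h hv⟩
  have hreal : ∀ τ : K →+* ℝ, ∃ (g : Matrix (Fin 3) (Fin 3) ℝ) (e : ℝ), 0 < e ∧
      (¬ TI ((blk q).map τ) 1 → ∀ g' : Matrix (Fin 3) (Fin 3) ℝ,
        (∀ i j, ‖g' i j - g i j‖ < e) → g'.det ≠ 0 ∧ Good (QL (q.map τ) g') (τ d)) := by
    intro τ
    by_cases hTI : TI ((blk q).map τ) 1
    · exact ⟨1, 1, one_pos, fun h => absurd hTI h⟩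
    · obtain ⟨g, e, he, h1⟩ := hLCL ℝ two_ne_zero (q.map τ) (τ d)
        ((_root_.map_ne_zero τ).2 hd) (hmapsymm _ τ) (hHS _ τ) hTI (hCZ (Sum.inr τ))
      exact ⟨g, e, he, fun _ => h1⟩
  choose g e he hg hgw using hfin
  choose h e' he' hh using hreal
  obtain ⟨m, hm, hmr⟩ := hWAM K (insert w₁ S₀) g h e e' he he'
  have hm1 := hm w₁ (Finset.mem_insert_self _ _)
  obtain ⟨hg1, hele, hdet⟩ := hgw w₁ rfl
  have hmdet : m.det ≠ 0 := by
    have h5 := hdet (m.map (ic w₁)) (fun i j => hm1 i j)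
    intro hcon
    apply h5
    have h6 : (m.map (ic w₁)).det = ic w₁ m.det := (RingHom.map_det (ic w₁) m).symm
    rw [h6, hcon, map_zero]
  refine ⟨m, hmdet, ?_, ?_⟩
  · intro i j
    have h5 := hm1 i j
    rw [hg1] at h5
    exact h5.trans_le hele
  · have hQL : ∀ (E : Type) [Field E] (ι : K →+* E), (QL q m).map ι = QL (q.map ι) (m.map ι) := by
      intro E _ ι
      have h5 := (hLLV K m hmdet).2.2.2.2.2 E ι
      unfold QL
      rw [Matrix.map_mul, Matrix.map_mul, Matrix.transpose_map, h5]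
    have hTIgood : ∀ (E : Type) [Field E] (ι : K →+* E), TI ((blk q).map ι) 1 →
        Good ((QL q m).map ι) (ι d) := by
      intro E _ ι hTI
      left
      rw [hQL]
      have hmE : (m.map ι).det ≠ 0 := by
        have h6 : (m.map ι).det = ι m.det := (RingHom.map_det ι m).symm
        rw [h6]
        exact (_root_.map_ne_zero ι).2 hmdet
      rw [(hLLV E (m.map ι) hmE).2.2.2.1]
      exact TI_one_congr hmE hTI
    intro v
    cases v with
    | inl v =>
      show Good ((QL q m).map (ic v)) (ic v d)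
      by_cases hTI : TI ((blk q).map (ic v)) 1
      · exact hTIgood _ (ic v) hTI
      · have hv : v ∈ insert w₁ S₀ := by
          apply Finset.mem_insert_of_mem
          by_contra hcon
          exact hTI (hS₀ v hcon)
        rw [hQL]
        exact (hg v hTI (m.map (ic v)) (fun i j => hm v hv i j)).2
    | inr τ =>
      show Good ((QL q m).map τ) (τ d)
      by_cases hTI : TI ((blk q).map τ) 1
      · exact hTIgood _ τ hTI
      · rw [hQL]
        exact (hh τ hTI (m.map τ) (fun i j => hmr τ i j)).2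

end Pool.Agent.H23.N6F
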